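import Pool.Agent.Q225.NN.Defs
import Pool.Agent.Helper448.Warren

set_option autoImplicit false

/-! # Few subfunctions -/

namespace Pool.Agent.Q225.NN

open Finset MvPolynomial

theorem totalDegree_bind₁_le {σ τ : Type} (f : σ → MvPolynomial τ ℝ) (D : ℕ)
    (hf : ∀ j, (f j).totalDegree ≤ D) (φ : MvPolynomial σ ℝ) :
    (bind₁ f φ).totalDegree ≤ φ.totalDegree * D := by
  classical
  have h : bind₁ f φ = ∑ m ∈ φ.support, C (coeff m φ) * ∏ i ∈ m.support, f i ^ m i := by
    conv_lhs => rw [φ.as_sum]
    rw [map_sum]
    exact sum_congr rfl fun m _ => bind₁_monomial _ _ _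
  rw [h]
  refine (totalDegree_finsetSum _ _).trans (Finset.sup_le fun m hm => ?_)
  refine (totalDegree_mul _ _).trans ?_
  rw [totalDegree_C, zero_add]
  refine (totalDegree_finsetProd _ _).trans ?_
  have h1 : ∑ i ∈ m.support, (f i ^ m i).totalDegree ≤ ∑ i ∈ m.support, m i * D :=
    sum_le_sum fun i _ => (totalDegree_pow _ _).trans (Nat.mul_le_mul_left _ (hf i))
  refine h1.trans ?_
  rw [← sum_mul]
  apply Nat.mul_le_mul_right
  exact le_totalDegree hm

theorem eval_bind₁' {σ τ : Type} (f : σ → MvPolynomial τ ℝ) (θ : τ → ℝ) (φ : MvPolynomial σ ℝ) :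
    eval θ (bind₁ f φ) = eval (fun j => eval θ (f j)) φ := by
  have := eval₂Hom_bind₁ (RingHom.id ℝ) θ f φ
  exact this

variable {ι : Type} {D : ι → Type} [Fintype ι] [DecidableEq ι] {G : Type} [Fintype G]
  {k p d h : ℕ}

namespace Net

variable (N : Net ι D G k p d h)

omit [DecidableEq ι] in
theorem values_succ_of_ne {x : ∀ i, D i} {g : G} {t : ℕ} (hg : N.level g ≠ t) :
    N.values x (t + 1) g = N.values x t g := by
  simp [values, hg]

omit [DecidableEq ι] in
theorem values_zero_of_le {x : ∀ i, D i} {g : G} : ∀ {t : ℕ}, t ≤ N.level g → N.values x t g = 0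
  | 0, _ => rfl
  | t + 1, ht => by
    rw [N.values_succ_of_ne (by omega)]
    exact values_zero_of_le (by omega)

omit [DecidableEq ι] in
theorem values_stable {x : ∀ i, D i} {g : G} : ∀ (s : ℕ),
    N.values x (N.level g + 1 + s) g = N.values x (N.level g + 1) g
  | 0 => rfl
  | s + 1 => by
    rw [← add_assoc, N.values_succ_of_ne (by omega)]
    exact values_stable s

omit [DecidableEq ι] in
theorem values_eq (x : ∀ i, D i) (g : G) (t : ℕ) :
    N.values x t g = if N.level g < t then N.values x h g else 0 := by
  split_ifs with h1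
  · obtain ⟨s, hs⟩ : ∃ s, t = N.level g + 1 + s := ⟨t - (N.level g + 1), by omega⟩
    obtain ⟨s', hs'⟩ : ∃ s, h = N.level g + 1 + s :=
      ⟨h - (N.level g + 1), by have := N.level_lt g; omega⟩
    have e1 : N.values x h g = N.values x (N.level g + 1 + s') g :=
      congrArg (fun m => N.values x m g) hs'
    rw [hs, N.values_stable, e1, N.values_stable]
  · exact N.values_zero_of_le (by omega)

/-- Neurons which do not depend on item `i`. -/
theorem values_update {g : G} {i : ι} (hg : ¬ N.DependsOn g i) (x : ∀ i, D i) (a : D i) (t : ℕ) :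
    N.values (Function.update x i a) t g = N.values x t g := by
  rw [N.values_eq _ g t, N.values_eq x g t]
  unfold DependsOn at hg
  push Not at hg
  rw [hg x a]

section family

variable {Y : Type} (i : ι) (y : Y → D i)

/-- the neurons which depend on item `i` -/
abbrev Dep : Type := {g : G // N.DependsOn g i}

open Classical in
/-- the contribution of the other items and neurons -/
noncomputable def par (z : ∀ i, D i) (e : N.Dep i × Fin k) : ℝ :=
  ∑ g' ∈ univ.filter (fun g' => ¬ N.DependsOn g' i),
      N.weight e.1 e.2 g' * N.values z (N.level e.1) g' +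
    ∑ j ∈ univ.erase i, N.feature e.1 e.2 j (z j)

open Classical in
/-- the polynomial of a channel -/
noncomputable def chan (P : N.Dep i → MvPolynomial (N.Dep i × Fin k) ℝ) (v : Y) (g : N.Dep i)
    (j : Fin k) : MvPolynomial (N.Dep i × Fin k) ℝ :=
  ∑ g' : N.Dep i, C (N.weight g j g') * P g' + X (g, j) + C (N.feature g j i (y v))

open Classical in
theorem eval_chan (P : N.Dep i → MvPolynomial (N.Dep i × Fin k) ℝ) (v : Y) (g : N.Dep i)
    (j : Fin k) (z : ∀ i, D i)
    (hP : ∀ g' : N.Dep i, N.values (Function.update z i (y v)) (N.level g) g' =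
      eval (N.par i z) (P g')) :
    eval (N.par i z) (N.chan i y P v g j) =
      N.input (Function.update z i (y v)) (N.values (Function.update z i (y v)) (N.level g)) g j := by
  have h1 : ∑ g' : N.Dep i, N.weight g j g' * eval (N.par i z) (P g') =
      ∑ g' ∈ univ.filter (fun g' => N.DependsOn g' i),
        N.weight g j g' * N.values (Function.update z i (y v)) (N.level g) g' := by
    rw [← Finset.sum_subtype_eq_sum_filter, Finset.subtype_univ]
    exact sum_congr rfl fun g' _ => by rw [hP]
  have h2 : ∑ g' ∈ univ.filter (fun g' => ¬ N.DependsOn g' i),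
      N.weight g j g' * N.values z (N.level g) g' =
      ∑ g' ∈ univ.filter (fun g' => ¬ N.DependsOn g' i),
        N.weight g j g' * N.values (Function.update z i (y v)) (N.level g) g' := by
    refine sum_congr rfl fun g' hg' => ?_
    rw [N.values_update (mem_filter.1 hg').2]
  have h3 : ∑ j' : ι, N.feature g j j' (Function.update z i (y v) j') =
      N.feature g j i (y v) + ∑ j' ∈ univ.erase i, N.feature g j j' (z j') := by
    rw [← Finset.add_sum_erase univ _ (mem_univ i), Function.update_self]
    congr 1
    refine sum_congr rfl fun j' hj' => ?_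
    rw [Function.update_of_ne (mem_erase.1 hj').1]
  unfold chan input
  simp only [map_add, map_sum, map_mul, eval_C, eval_X]
  rw [h1, h3, par, h2, ← Finset.sum_filter_add_sum_filter_not univ (fun g' => N.DependsOn g' i)]
  ring

theorem chan_degree (P : N.Dep i → MvPolynomial (N.Dep i × Fin k) ℝ) (v : Y) (g : N.Dep i)
    (j : Fin k) (E : ℕ) (hE : 1 ≤ E) (hP : ∀ g', (P g').totalDegree ≤ E) :
    (N.chan i y P v g j).totalDegree ≤ E := by
  classical
  unfold chan
  refine (totalDegree_add _ _).trans (max_le ((totalDegree_add _ _).trans (max_le ?_ ?_)) ?_)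
  · refine (totalDegree_finsetSum _ _).trans (Finset.sup_le fun g' _ => ?_)
    refine (totalDegree_mul _ _).trans ?_
    rw [totalDegree_C, zero_add]
    exact hP g'
  · rw [totalDegree_X]
    exact hE
  · rw [totalDegree_C]
    omega

open Classical in
/-- All values are given by few families of polynomials. -/
theorem family [Fintype Y] (hd : 1 ≤ d) (M : ℕ)
    (hM : 4 * (Fintype.card Y * (Fintype.card (N.Dep i) * p)) * d ^ h + 2 ≤ M) :
    ∀ t ≤ h, ∃ (κ : Type) (_ : Fintype κ) (P : κ → Y → N.Dep i → MvPolynomial (N.Dep i × Fin k) ℝ),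
      Fintype.card κ ≤ M ^ (t * (Fintype.card (N.Dep i) * k)) ∧
      (∀ c v g, (P c v g).totalDegree ≤ d ^ t) ∧
      ∀ z : ∀ i, D i, ∃ c, ∀ v (g : N.Dep i),
        N.values (Function.update z i (y v)) t g = eval (N.par i z) (P c v g)
  | 0, _ => by
    refine ⟨Unit, inferInstance, fun _ _ _ => 0, by simp, by simp, fun z => ⟨(), fun v g => ?_⟩⟩
    simp [values]
  | t + 1, ht => by
    obtain ⟨κ, _, P, h1, h2, h3⟩ := family hd M hM t (by omega)
    obtain ⟨Q, hQ⟩ : ∃ Q : κ → (Y × (N.Dep i × Fin p)) → MvPolynomial (N.Dep i × Fin k) ℝ,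
        Q = fun c e => bind₁ (N.chan i y (P c e.1) e.1 e.2.1) (N.test e.2.1 e.2.2) := ⟨_, rfl⟩
    have hdt : 1 ≤ d ^ t := Nat.one_le_pow _ _ hd
    have hQd : ∀ c e, (Q c e).totalDegree ≤ d ^ (t + 1) := by
      intro c e
      rw [hQ]
      refine (totalDegree_bind₁_le _ (d ^ t)
        (fun j => N.chan_degree i y _ _ _ _ _ hdt (h2 c e.1)) _).trans ?_
      rw [pow_succ, mul_comm]
      exact Nat.mul_le_mul_left _ (N.degree_test _ _)
    obtain ⟨S, hS⟩ : ∃ S : κ → Set (Y × (N.Dep i × Fin p) → SignType),
        S = fun c => Set.range (fun θ : N.Dep i × Fin k → ℝ => fun e =>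
          SignType.sign (eval θ (Q c e))) := ⟨_, rfl⟩
    have hScard : ∀ c, (S c).ncard ≤ M ^ (Fintype.card (N.Dep i) * k) := by
      intro c
      rw [hS]
      refine (Pool.Agent.Helper448.Warren.ncard_sign_patterns_le (Q c) _ (hQd c)).trans ?_
      rw [Fintype.card_prod (N.Dep i) (Fin k), Fintype.card_fin, Fintype.card_prod,
        Fintype.card_prod, Fintype.card_fin]
      apply Nat.pow_le_pow_left
      refine le_trans ?_ hM
      have : d ^ (t + 1) ≤ d ^ h := Nat.pow_le_pow_right hd ht
      have h5 := Nat.mul_le_mul_left (4 * (Fintype.card Y * (Fintype.card (N.Dep i) * p))) this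
      omega
    have hSf : ∀ c, Fintype (S c) := fun c => (Set.toFinite (S c)).fintype
    refine ⟨Σ c, S c, inferInstance, fun c v g =>
      if N.level g = t then bind₁ (N.chan i y (P c.1 v) v g)
        (N.piece g (fun q => c.2.1 (v, (g, q)))) else P c.1 v g, ?_, ?_, ?_⟩
    · rw [Fintype.card_sigma]
      have h4 : ∀ c, Fintype.card (S c) ≤ M ^ (Fintype.card (N.Dep i) * k) := by
        intro c
        rw [← Nat.card_eq_fintype_card, Nat.card_coe_set_eq]
        exact hScard c
      calc ∑ c, Fintype.card (S c) ≤ ∑ _c : κ, M ^ (Fintype.card (N.Dep i) * k) :=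
            sum_le_sum fun c _ => h4 c
        _ = Fintype.card κ * M ^ (Fintype.card (N.Dep i) * k) := by
            rw [sum_const, card_univ, smul_eq_mul]
        _ ≤ M ^ (t * (Fintype.card (N.Dep i) * k)) * M ^ (Fintype.card (N.Dep i) * k) :=
            Nat.mul_le_mul_right _ h1
        _ = M ^ ((t + 1) * (Fintype.card (N.Dep i) * k)) := by
            rw [← pow_add]
            congr 1
            ring
    · intro c v g
      dsimp only
      split_ifs with hl
      · refine (totalDegree_bind₁_le _ (d ^ t)
          (fun j => N.chan_degree i y _ _ _ _ _ hdt (h2 c.1 v)) _).trans ?_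
        rw [pow_succ, mul_comm]
        exact Nat.mul_le_mul_left _ (N.degree_piece _ _)
      · exact (h2 c.1 v g).trans (Nat.pow_le_pow_right hd (by omega))
    · intro z
      obtain ⟨c, hc⟩ := h3 z
      refine ⟨⟨c, ⟨fun e => SignType.sign (eval (N.par i z) (Q c e)), ?_⟩⟩, fun v g => ?_⟩
      · rw [hS]
        exact ⟨N.par i z, rfl⟩
      · dsimp only
        by_cases hl : N.level g = t
        · rw [if_pos hl, eval_bind₁']
          have h5 : (fun j => eval (N.par i z) (N.chan i y (P c v) v g j)) =
              N.input (Function.update z i (y v)) (N.values (Function.update z i (y v)) t) g := by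
            funext j
            have := N.eval_chan i y (P c v) v g j z (fun g' => by rw [hl]; exact hc v g')
            rw [hl] at this
            exact this
          rw [h5]
          simp only [values, hl, if_true, fire]
          congr 2
          funext q
          rw [hQ]
          simp only [eval_bind₁']
          rw [h5]
        · rw [if_neg hl, N.values_succ_of_ne hl]
          exact hc v g

end family

end Net

end Pool.Agent.Q225.NN
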