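import Mathlib

set_option autoImplicit false

/-! # Neural networks with piecewise polynomial neurons -/

namespace Pool.Agent.Q225.NN

open Finset MvPolynomial

/-- A neural network with the neurons `G`. A neuron gets `k` linear forms (with arbitrary real
weights) of the values of the neurons of lower levels, to each of which an arbitrary real function of
every single item is added. It computes a piecewise polynomial function of these `k` numbers: the
signs of `p` test polynomials are determined, and the value is the value of a polynomial which may
depend on these signs. All these polynomials have degree at most `d`. There are the levels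
`0, ..., h - 1`. -/
structure Net (ι : Type) (D : ι → Type) (G : Type) (k p d h : ℕ) where
  /-- the levels of the neurons -/
  level : G → ℕ
  /-- the weights -/
  weight : G → Fin k → G → ℝ
  /-- the functions of single items -/
  feature : G → Fin k → ∀ i, D i → ℝ
  /-- the test polynomials of a neuron -/
  test : G → Fin p → MvPolynomial (Fin k) ℝ
  /-- the polynomials of a neuron, which are selected by the signs of the tests -/
  piece : G → (Fin p → SignType) → MvPolynomial (Fin k) ℝ
  /-- the output neuron -/
  out : G
  level_lt : ∀ g, level g < h
  degree_test : ∀ g q, (test g q).totalDegree ≤ d
  degree_piece : ∀ g s, (piece g s).totalDegree ≤ d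

namespace Net

variable {ι : Type} {D : ι → Type} [Fintype ι] {G : Type} [Fintype G] {k p d h : ℕ}

/-- The number which the neuron `g` gets on its channel `j`, if the neurons have the values `v`. -/
noncomputable def input (N : Net ι D G k p d h) (x : ∀ i, D i) (v : G → ℝ) (g : G) (j : Fin k) : ℝ :=
  ∑ g', N.weight g j g' * v g' + ∑ i, N.feature g j i (x i)

/-- The value of the neuron `g`, if the other neurons have the values `v`. -/
noncomputable def fire (N : Net ι D G k p d h) (x : ∀ i, D i) (v : G → ℝ) (g : G) : ℝ :=
  eval (N.input x v g)
    (N.piece g (fun q => SignType.sign (eval (N.input x v g) (N.test g q))))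

/-- The values of the neurons after the levels below `t` have been computed (the other ones are
zero). -/
noncomputable def values (N : Net ι D G k p d h) (x : ∀ i, D i) : ℕ → G → ℝ
  | 0 => fun _ => 0
  | t + 1 => fun g => if N.level g = t then N.fire x (N.values x t) g else N.values x t g

/-- The result: is the value of the output neuron positive? -/
noncomputable def accepts (N : Net ι D G k p d h) (x : ∀ i, D i) : Bool :=
  decide (0 < N.values x h N.out)

/-- The value of the neuron `g` depends on item `i`. -/
def DependsOn [DecidableEq ι] (N : Net ι D G k p d h) (g : G) (i : ι) : Prop :=
  ∃ (x : ∀ i, D i) (a : D i), N.values (Function.update x i a) h g ≠ N.values x h g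

open Classical in
/-- The number of pairs of a neuron and an item in `I` on which it depends. -/
noncomputable def load [DecidableEq ι] (I : Finset ι) (N : Net ι D G k p d h) : ℕ :=
  ∑ i ∈ I, (univ.filter (fun g => N.DependsOn g i)).card

/-- The values of the neurons are constant on the pieces (as for threshold gates). -/
def Steps (N : Net ι D G k p d h) : Prop := ∀ g s, ∃ c : ℝ, N.piece g s = C c

end Net

/-- The expected value. -/
noncomputable def mean {Ω : Type} [Fintype Ω] (μ : Ω → ℝ) (a : Ω → ℕ) : ℝ := ∑ ω, μ ω * (a ω : ℝ)

end Pool.Agent.Q225.NN
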