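import Pool.Agent.Q225.NN.Lower
import Pool.Agent.Q225.LS.Good

set_option autoImplicit false

/-! # Closed forms -/

namespace Pool.Agent.Q225.NN

open Finset
open Pool.Agent.Y638.RF (Asks)
open Pool.Agent.TH697.Form (IsProb)
open Pool.Agent.TH697.Row (ApproximatesOn)
open Pool.Agent.Q225.LS (Good)

variable {ι : Type} {D : ι → Type} [Fintype ι] [DecidableEq ι] {T : Type} [Fintype T]
  {Ω : Type} [Fintype Ω] {G : Type} [Fintype G] {k p d h : ℕ}

theorem close {A g G' X B : ℝ} (h : A ≤ g * X) (hX : 0 ≤ X) (h1 : g ≤ G')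
    (hG : 0 < G') (hB : B * G' ≤ A) : B ≤ X := by
  have h2 : g * X ≤ G' * X := mul_le_mul_of_nonneg_right h1 hX
  have h3 : G' * B ≤ G' * X := by linarith
  exact le_of_mul_le_mul_left h3 hG

theorem net_bound {K L : ℕ} {B : ℝ} {I : Finset ι}
    (hg : Good K L (I.card * ((49 / 600) * Fintype.card T)) B)
    {P : (∀ i, D i) → Prop} {f : (∀ i, D i) → Bool} (hA : ∀ i ∈ I, Asks T K 0 P f i)
    (hd : 1 ≤ d) (hL : Fintype.card G * (p + 1) * d ^ h ≤ L)
    (μ : Ω → ℝ) (hμ : IsProb μ) (N : Ω → Net ι D G k p d h)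
    (hF : ApproximatesOn μ (fun ω => (N ω).accepts) P f) :
    B ≤ (h + 1) * k * mean μ (fun ω => (N ω).load I) + I.card := by
  obtain ⟨M, G', h1, h2, h3, h4⟩ := hg
  have h6 : 4 * (K * (Fintype.card G * (p + 1))) * d ^ h + 2 ≤ M := by
    have e1 : 4 * (K * (Fintype.card G * (p + 1))) * d ^ h =
        4 * K * (Fintype.card G * (p + 1) * d ^ h) := by ring
    have e2 : 4 * K * (Fintype.card G * (p + 1) * d ^ h) ≤ 4 * K * (L + 1) :=
      Nat.mul_le_mul_left _ (by omega)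
    omega
  have h5 := net_lower μ hμ N P f hF K M hd h6 I 0 hA
  rw [sub_zero] at h5
  have h7 : 0 ≤ (h + 1) * k * mean μ (fun ω => (N ω).load I) + (I.card : ℝ) :=
    add_nonneg (mul_nonneg (by positivity) (mean_nonneg μ hμ _)) (Nat.cast_nonneg _)
  exact close h5 h7 h2 h3 h4

theorem steps_bound {K L : ℕ} {B : ℝ} {I : Finset ι}
    (hg : Good K L (I.card * ((49 / 600) * Fintype.card T)) B)
    {P : (∀ i, D i) → Prop} {f : (∀ i, D i) → Bool} (hA : ∀ i ∈ I, Asks T K 0 P f i)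
    (hL : Fintype.card G * (p + 1) * d ≤ L)
    (μ : Ω → ℝ) (hμ : IsProb μ) (N : Ω → Net ι D G k p d h) (hN : ∀ ω, (N ω).Steps)
    (hF : ApproximatesOn μ (fun ω => (N ω).accepts) P f) :
    B ≤ k * mean μ (fun ω => (N ω).load I) + I.card := by
  obtain ⟨M, G', h1, h2, h3, h4⟩ := hg
  have h6 : 4 * (K * (Fintype.card G * (p + 1))) * d + 2 ≤ M := by
    have e1 : 4 * (K * (Fintype.card G * (p + 1))) * d =
        4 * K * (Fintype.card G * (p + 1) * d) := by ring
    have e2 : 4 * K * (Fintype.card G * (p + 1) * d) ≤ 4 * K * (L + 1) :=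
      Nat.mul_le_mul_left _ (by omega)
    omega
  have h5 := steps_lower μ hμ N hN P f hF K M h6 I 0 hA
  rw [sub_zero] at h5
  have h7 : 0 ≤ k * mean μ (fun ω => (N ω).load I) + (I.card : ℝ) :=
    add_nonneg (mul_nonneg (by positivity) (mean_nonneg μ hμ _)) (Nat.cast_nonneg _)
  exact close h5 h7 h2 h3 h4

end Pool.Agent.Q225.NN
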