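import Pool.Agent.Q225.NN.Thr
import Pool.Agent.Y638.RF.Lower

set_option autoImplicit false

/-! # The lower bounds -/

namespace Pool.Agent.Q225.NN

open Finset MvPolynomial
open Pool.Agent.Y638.RF (Asks gen_err)
open Pool.Agent.TH697.Form (IsProb)
open Pool.Agent.TH697.Row (ApproximatesOn)

variable {ι : Type} {D : ι → Type} [DecidableEq ι] {T : Type} [Fintype T]
  {Ω : Type} [Fintype Ω]

open Classical in
theorem lower (μ : Ω → ℝ) (hμ : IsProb μ) (F : Ω → (∀ i, D i) → Bool)
    (P : (∀ i, D i) → Prop) (f : (∀ i, D i) → Bool) (hF : ApproximatesOn μ F P f)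
    (a : Ω → ι → ℕ) (K M : ℕ) (hM : 1 ≤ M) (I : Finset ι) (δ : ℝ)
    (hsub : ∀ (Y : Type) [Fintype Y] (i : ι) (y : Y → D i), Fintype.card Y ≤ K → ∀ ω,
      ∃ 𝒮 : Finset (Y → Bool), 𝒮.card ≤ M ^ (a ω i + 1) ∧
        ∀ z, (fun v => F ω (Function.update z i (y v))) ∈ 𝒮)
    (h : ∀ i ∈ I, Asks T K δ P f i) :
    (I.card : ℝ) * ((49 / 600 - δ) * Fintype.card T) ≤
      Real.logb 2 M * (mean μ (fun ω => ∑ i ∈ I, a ω i) + I.card) := by
  have h6 : (0 : ℝ) < Real.log 2 := Real.log_pos (by norm_num)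
  have hlM : 0 ≤ Real.log (M : ℝ) := Real.log_nonneg (by exact_mod_cast hM)
  have h1 : ∀ i ∈ I, (49 / 600 - δ) * Fintype.card T * Real.log 2
      ≤ ∑ ω, μ ω * (Real.log M * ((a ω i : ℝ) + 1)) := by
    intro i hi
    obtain ⟨A, r, Qs, R, hA, hQA, hQ, hP, hf⟩ := h i hi
    obtain ⟨y, hy⟩ : ∃ y : {d // d ∈ A} → D i, y = fun v => v.1 := ⟨_, rfl⟩
    have hK : Fintype.card {d // d ∈ A} ≤ K := by
      rw [Fintype.card_coe]
      exact hA
    choose 𝒮 hS1 hS2 using fun ω => hsub {d // d ∈ A} i y hK ω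
    refine (gen_err μ hμ F P f hF i y 𝒮 (fun ω z => hS2 ω z) r
      (fun t z => ⟨Qs t z, hQA t z⟩) (fun t z z' hz => Subtype.ext (hQ t z z' hz)) R
      (fun t z => by rw [hy]; exact hP t z) δ (by rw [hy]; exact hf)).trans ?_
    apply sum_le_sum
    intro ω _
    apply mul_le_mul_of_nonneg_left _ (hμ.nonneg ω)
    have hne : 1 ≤ (𝒮 ω).card := card_pos.2 ⟨_, hS2 ω (R (fun _ => false))⟩
    have h2 : ((𝒮 ω).card : ℝ) ≤ (M : ℝ) ^ (a ω i + 1) := by
      exact_mod_cast hS1 ω
    have h4 := Real.log_le_log (by exact_mod_cast hne) h2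
    rw [Real.log_pow] at h4
    push_cast at h4
    linarith
  have h2 := sum_le_sum h1
  rw [sum_const, nsmul_eq_mul, sum_comm] at h2
  have h3 : ∑ ω, ∑ i ∈ I, μ ω * (Real.log M * ((a ω i : ℝ) + 1)) =
      Real.log M * (mean μ (fun ω => ∑ i ∈ I, a ω i) + I.card) := by
    have e1 : Real.log M * (mean μ (fun ω => ∑ i ∈ I, a ω i) + I.card) =
        ∑ ω, μ ω * (Real.log M * (((∑ i ∈ I, a ω i : ℕ) : ℝ) + I.card)) := by
      unfold mean
      simp only [mul_add, sum_add_distrib]
      rw [← sum_mul, hμ.sum_one, one_mul, mul_sum]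
      congr 1
      refine sum_congr rfl fun ω _ => ?_
      ring
    rw [e1]
    apply sum_congr rfl
    intro ω _
    rw [← mul_sum, ← mul_sum, sum_add_distrib, sum_const, nsmul_eq_mul, mul_one]
    congr 3
    push_cast
    rfl
  rw [h3] at h2
  have h7 : Real.logb 2 M * (mean μ (fun ω => ∑ i ∈ I, a ω i) + I.card) * Real.log 2 =
      Real.log M * (mean μ (fun ω => ∑ i ∈ I, a ω i) + I.card) := by
    rw [Real.logb]
    field_simp
  have h5 : (I.card : ℝ) * ((49 / 600 - δ) * Fintype.card T) * Real.log 2 ≤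
      Real.logb 2 M * (mean μ (fun ω => ∑ i ∈ I, a ω i) + I.card) * Real.log 2 := by
    rw [h7]
    linarith
  exact le_of_mul_le_mul_right h5 h6

variable [Fintype ι] {G : Type} [Fintype G] {k p d h : ℕ}

namespace Net

open Classical in
theorem sub_const {Y : Type} (i : ι) (y : Y → D i) (N : Net ι D G k p d h)
    (ho : ¬ N.DependsOn N.out i) (M e : ℕ) (hM : 2 ≤ M) :
    ∃ 𝒮 : Finset (Y → Bool), 𝒮.card ≤ M ^ (e + 1) ∧
      ∀ z, (fun v => N.accepts (Function.update z i (y v))) ∈ 𝒮 := by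
  refine ⟨{fun _ => true, fun _ => false}, ?_, fun z => ?_⟩
  · refine card_le_two.trans ?_
    calc 2 ≤ M := hM
      _ = M ^ 1 := (pow_one M).symm
      _ ≤ M ^ (e + 1) := Nat.pow_le_pow_right (by omega) (by omega)
  · have h1 : (fun v => N.accepts (Function.update z i (y v))) = fun _ => N.accepts z := by
      funext v
      unfold accepts
      rw [N.values_update ho]
    rw [h1, mem_insert, mem_singleton]
    cases N.accepts z
    · exact Or.inr rfl
    · exact Or.inl rfl

open Classical in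
theorem sub_accepts {Y : Type} [Fintype Y] (i : ι) (y : Y → D i) (N : Net ι D G k p d h)
    (hd : 1 ≤ d) (M : ℕ)
    (hM : 4 * (Fintype.card Y * (Fintype.card G * (p + 1))) * d ^ h + 2 ≤ M) :
    ∃ 𝒮 : Finset (Y → Bool), 𝒮.card ≤ M ^ ((h + 1) * (Fintype.card (N.Dep i) * k) + 1) ∧
      ∀ z, (fun v => N.accepts (Function.update z i (y v))) ∈ 𝒮 := by
  by_cases ho : N.DependsOn N.out i
  · have hG : 1 ≤ Fintype.card G := Fintype.card_pos_iff.2 ⟨N.out⟩
    have hDG : Fintype.card (N.Dep i) ≤ Fintype.card G := Fintype.card_subtype_le _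
    have hM1 : 4 * (Fintype.card Y * (Fintype.card (N.Dep i) * p)) * d ^ h + 2 ≤ M := by
      have h5 : 4 * (Fintype.card Y * (Fintype.card (N.Dep i) * p)) * d ^ h ≤
          4 * (Fintype.card Y * (Fintype.card G * (p + 1))) * d ^ h :=
        Nat.mul_le_mul_right _ (Nat.mul_le_mul_left _ (Nat.mul_le_mul_left _
          (Nat.mul_le_mul hDG (Nat.le_succ p))))
      omega
    have hM2 : 4 * Fintype.card Y * d ^ h + 2 ≤ M := by
      have h5 : 4 * (Fintype.card Y * 1) * d ^ h ≤
          4 * (Fintype.card Y * (Fintype.card G * (p + 1))) * d ^ h :=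
        Nat.mul_le_mul_right _ (Nat.mul_le_mul_left _ (Nat.mul_le_mul_left _
          (Nat.mul_pos hG (Nat.succ_pos p))))
      rw [mul_one] at h5
      omega
    obtain ⟨κ, _, P, h1, h2, h3⟩ := N.family i y hd M hM1 h le_rfl
    refine ⟨univ.biUnion (fun c : κ => (Set.toFinite (Set.range
      (fun θ : N.Dep i × Fin k → ℝ => fun v : Y =>
        SignType.sign (eval θ (P c v ⟨N.out, ho⟩))))).toFinset.image
          (fun σ => fun v => decide (σ v = 1))), ?_, ?_⟩
    · refine card_biUnion_le.trans ?_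
      have h4 : ∀ c : κ, ((Set.toFinite (Set.range
          (fun θ : N.Dep i × Fin k → ℝ => fun v : Y =>
            SignType.sign (eval θ (P c v ⟨N.out, ho⟩))))).toFinset.image
              (fun σ => fun v => decide (σ v = 1))).card ≤
          M ^ (Fintype.card (N.Dep i) * k) := by
        intro c
        refine card_image_le.trans ?_
        rw [← Set.ncard_eq_toFinset_card]
        refine (Pool.Agent.Helper448.Warren.ncard_sign_patterns_le
          (fun v => P c v ⟨N.out, ho⟩) _ (fun v => h2 c v _)).trans ?_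
        rw [Fintype.card_prod, Fintype.card_fin]
        exact Nat.pow_le_pow_left hM2 _
      calc ∑ c : κ, ((Set.toFinite (Set.range
          (fun θ : N.Dep i × Fin k → ℝ => fun v : Y =>
            SignType.sign (eval θ (P c v ⟨N.out, ho⟩))))).toFinset.image
              (fun σ => fun v => decide (σ v = 1))).card
          ≤ ∑ _c : κ, M ^ (Fintype.card (N.Dep i) * k) := sum_le_sum fun c _ => h4 c
        _ = Fintype.card κ * M ^ (Fintype.card (N.Dep i) * k) := by
            rw [sum_const, card_univ, smul_eq_mul]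
        _ ≤ M ^ (h * (Fintype.card (N.Dep i) * k)) * M ^ (Fintype.card (N.Dep i) * k) :=
            Nat.mul_le_mul_right _ h1
        _ = M ^ ((h + 1) * (Fintype.card (N.Dep i) * k)) := by
            rw [← pow_add]
            congr 1
            ring
        _ ≤ M ^ ((h + 1) * (Fintype.card (N.Dep i) * k) + 1) :=
            Nat.pow_le_pow_right (by omega) (by omega)
    · intro z
      obtain ⟨c, hc⟩ := h3 z
      rw [mem_biUnion]
      refine ⟨c, mem_univ _, ?_⟩
      rw [mem_image]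
      refine ⟨fun v => SignType.sign (eval (N.par i z) (P c v ⟨N.out, ho⟩)), ?_, ?_⟩
      · rw [Set.Finite.mem_toFinset]
        exact ⟨_, rfl⟩
      · funext v
        unfold accepts
        have h7 := hc v ⟨N.out, ho⟩
        simp only [← h7, sign_eq_one_iff]
  · have hM2 : 2 ≤ M := by omega
    exact sub_const i y N ho M _ hM2

open Classical in
theorem sub_steps {Y : Type} [Fintype Y] (i : ι) (y : Y → D i) (N : Net ι D G k p d h)
    (hN : N.Steps) (M : ℕ)
    (hM : 4 * (Fintype.card Y * (Fintype.card G * (p + 1))) * d + 2 ≤ M) :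
    ∃ 𝒮 : Finset (Y → Bool), 𝒮.card ≤ M ^ (Fintype.card (N.Dep i) * k + 1) ∧
      ∀ z, (fun v => N.accepts (Function.update z i (y v))) ∈ 𝒮 := by
  by_cases ho : N.DependsOn N.out i
  · have hDG : Fintype.card (N.Dep i) ≤ Fintype.card G := Fintype.card_subtype_le _
    have hM1 : 4 * (Fintype.card Y * (Fintype.card (N.Dep i) * p)) * d + 2 ≤ M := by
      have h5 : 4 * (Fintype.card Y * (Fintype.card (N.Dep i) * p)) * d ≤
          4 * (Fintype.card Y * (Fintype.card G * (p + 1))) * d :=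
        Nat.mul_le_mul_right _ (Nat.mul_le_mul_left _ (Nat.mul_le_mul_left _
          (Nat.mul_le_mul hDG (Nat.le_succ p))))
      omega
    obtain ⟨S, h1, h2⟩ := N.family_steps i y hN M hM1 h
    refine ⟨S.image (fun V v => decide (0 < V v ⟨N.out, ho⟩)), ?_, ?_⟩
    · refine card_image_le.trans (h1.trans ?_)
      apply Nat.pow_le_pow_right (by omega)
      have h3 : (univ.filter (fun g : N.Dep i => N.level g < h)).card ≤
          Fintype.card (N.Dep i) := card_le_univ _
      have h4 := Nat.mul_le_mul_right k h3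
      omega
    · intro z
      rw [mem_image]
      exact ⟨_, h2 z, rfl⟩
  · have hM2 : 2 ≤ M := by omega
    exact sub_const i y N ho M _ hM2

open Classical in
theorem load_eq (N : Net ι D G k p d h) (I : Finset ι) :
    N.load I = ∑ i ∈ I, Fintype.card (N.Dep i) := by
  unfold load
  refine sum_congr rfl fun i _ => ?_
  rw [Fintype.card_subtype]

end Net

theorem mean_mul (μ : Ω → ℝ) (a : Ω → ℕ) (c : ℕ) :
    mean μ (fun ω => c * a ω) = c * mean μ a := by
  unfold mean
  rw [mul_sum]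
  refine sum_congr rfl fun ω _ => ?_
  push_cast
  ring

theorem net_lower (μ : Ω → ℝ) (hμ : IsProb μ) (N : Ω → Net ι D G k p d h)
    (P : (∀ i, D i) → Prop) (f : (∀ i, D i) → Bool)
    (hF : ApproximatesOn μ (fun ω => (N ω).accepts) P f) (K M : ℕ) (hd : 1 ≤ d)
    (hM : 4 * (K * (Fintype.card G * (p + 1))) * d ^ h + 2 ≤ M) (I : Finset ι) (δ : ℝ)
    (hA : ∀ i ∈ I, Asks T K δ P f i) :
    (I.card : ℝ) * ((49 / 600 - δ) * Fintype.card T) ≤
      Real.logb 2 M * ((h + 1) * k * mean μ (fun ω => (N ω).load I) + I.card) := by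
  classical
  have h1 := lower μ hμ (fun ω => (N ω).accepts) P f hF
    (fun ω i => (h + 1) * (Fintype.card ((N ω).Dep i) * k)) K M (by omega) I δ
    (fun Y _ i y hK ω => (N ω).sub_accepts i y hd M (by
      have h5 : 4 * (Fintype.card Y * (Fintype.card G * (p + 1))) * d ^ h ≤
          4 * (K * (Fintype.card G * (p + 1))) * d ^ h :=
        Nat.mul_le_mul_right _ (Nat.mul_le_mul_left _ (Nat.mul_le_mul_right _ hK))
      omega)) hA
  have h2 : mean μ (fun ω => ∑ i ∈ I, (h + 1) * (Fintype.card ((N ω).Dep i) * k)) =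
      (h + 1) * k * mean μ (fun ω => (N ω).load I) := by
    have h3 : (fun ω => ∑ i ∈ I, (h + 1) * (Fintype.card ((N ω).Dep i) * k)) =
        fun ω => ((h + 1) * k) * (N ω).load I := by
      funext ω
      rw [(N ω).load_eq, mul_sum]
      refine sum_congr rfl fun i _ => ?_
      ring
    rw [h3, mean_mul]
    push_cast
    ring
  rw [h2] at h1
  exact h1

theorem steps_lower (μ : Ω → ℝ) (hμ : IsProb μ) (N : Ω → Net ι D G k p d h)
    (hN : ∀ ω, (N ω).Steps)
    (P : (∀ i, D i) → Prop) (f : (∀ i, D i) → Bool)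
    (hF : ApproximatesOn μ (fun ω => (N ω).accepts) P f) (K M : ℕ)
    (hM : 4 * (K * (Fintype.card G * (p + 1))) * d + 2 ≤ M) (I : Finset ι) (δ : ℝ)
    (hA : ∀ i ∈ I, Asks T K δ P f i) :
    (I.card : ℝ) * ((49 / 600 - δ) * Fintype.card T) ≤
      Real.logb 2 M * (k * mean μ (fun ω => (N ω).load I) + I.card) := by
  classical
  have h1 := lower μ hμ (fun ω => (N ω).accepts) P f hF
    (fun ω i => Fintype.card ((N ω).Dep i) * k) K M (by omega) I δ
    (fun Y _ i y hK ω => (N ω).sub_steps i y (hN ω) M (by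
      have h5 : 4 * (Fintype.card Y * (Fintype.card G * (p + 1))) * d ≤
          4 * (K * (Fintype.card G * (p + 1))) * d :=
        Nat.mul_le_mul_right _ (Nat.mul_le_mul_left _ (Nat.mul_le_mul_right _ hK))
      omega)) hA
  have h2 : mean μ (fun ω => ∑ i ∈ I, Fintype.card ((N ω).Dep i) * k) =
      k * mean μ (fun ω => (N ω).load I) := by
    have h3 : (fun ω => ∑ i ∈ I, Fintype.card ((N ω).Dep i) * k) =
        fun ω => k * (N ω).load I := by
      funext ω
      rw [(N ω).load_eq, mul_sum]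
      refine sum_congr rfl fun i _ => ?_
      ring
    rw [h3, mean_mul]
  rw [h2] at h1
  exact h1

theorem mean_nonneg (μ : Ω → ℝ) (hμ : IsProb μ) (a : Ω → ℕ) : 0 ≤ mean μ a := by
  unfold mean
  exact sum_nonneg fun ω _ => mul_nonneg (hμ.nonneg ω) (Nat.cast_nonneg _)

end Pool.Agent.Q225.NN
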