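import Pool.Agent.Q225.NN.Core

set_option autoImplicit false

/-! # Few subfunctions: neurons which are constant on the pieces -/

namespace Pool.Agent.Q225.NN

open Finset MvPolynomial

variable {ι : Type} {D : ι → Type} [Fintype ι] [DecidableEq ι] {G : Type} [Fintype G]
  {k p d h : ℕ}

namespace Net

variable (N : Net ι D G k p d h)

section steps

variable {Y : Type} (i : ι) (y : Y → D i)

/-- the neurons of level `t` which depend on item `i` -/
abbrev Lev (t : ℕ) : Type := {g : N.Dep i // N.level g = t}

open Classical in
/-- the polynomial of a channel, if the values of the neurons of lower levels are known -/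
noncomputable def chan0 {t : ℕ} (V : N.Dep i → ℝ) (v : Y) (g : N.Lev i t)
    (j : Fin k) : MvPolynomial (N.Lev i t × Fin k) ℝ :=
  C (∑ g' : N.Dep i, N.weight g j g' * V g' + N.feature g j i (y v)) + X (g, j)

open Classical in
theorem eval_chan0 {t : ℕ} (V : N.Dep i → ℝ) (v : Y) (g : N.Lev i t)
    (j : Fin k) (z : ∀ i, D i)
    (hV : ∀ g' : N.Dep i, N.values (Function.update z i (y v)) t g' = V g') :
    eval (fun e : N.Lev i t × Fin k => N.par i z (e.1.1, e.2)) (N.chan0 i y V v g j) =
      N.input (Function.update z i (y v)) (N.values (Function.update z i (y v)) t) g j := by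
  have h0 := N.eval_chan i y (fun g' => C (V g')) v g.1 j z (fun g' => by
    rw [g.2, hV, eval_C])
  rw [g.2] at h0
  rw [← h0]
  unfold chan0 chan
  simp only [map_add, map_sum, map_mul, eval_C, eval_X]
  ring

theorem chan0_degree {t : ℕ} (V : N.Dep i → ℝ) (v : Y) (g : N.Lev i t) (j : Fin k) :
    (N.chan0 i y V v g j).totalDegree ≤ 1 := by
  classical
  unfold chan0
  refine (totalDegree_add _ _).trans (max_le ?_ ?_)
  · rw [totalDegree_C]
    omega
  · rw [totalDegree_X]

open Classical in
/-- All values are given by few families. -/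
theorem family_steps [Fintype Y] (hN : N.Steps) (M : ℕ)
    (hM : 4 * (Fintype.card Y * (Fintype.card (N.Dep i) * p)) * d + 2 ≤ M) :
    ∀ t, ∃ S : Finset (Y → N.Dep i → ℝ),
      S.card ≤ M ^ ((univ.filter (fun g : N.Dep i => N.level g < t)).card * k) ∧
      ∀ z : ∀ i, D i,
        (fun v (g : N.Dep i) => N.values (Function.update z i (y v)) t g) ∈ S
  | 0 => by
    refine ⟨{fun _ _ => 0}, by simp, fun z => ?_⟩
    simp [values]
  | t + 1 => by
    obtain ⟨S, h1, h2⟩ := family_steps hN M hM t
    choose c hc using hN
    obtain ⟨Q, hQ⟩ : ∃ Q : (Y → N.Dep i → ℝ) → (Y × (N.Lev i t × Fin p)) →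
        MvPolynomial (N.Lev i t × Fin k) ℝ,
        Q = fun V e => bind₁ (N.chan0 i y (V e.1) e.1 e.2.1) (N.test e.2.1 e.2.2) := ⟨_, rfl⟩
    have hQd : ∀ V e, (Q V e).totalDegree ≤ d := by
      intro V e
      rw [hQ]
      refine (totalDegree_bind₁_le _ 1 (fun j => N.chan0_degree i y _ _ _ _) _).trans ?_
      rw [mul_one]
      exact N.degree_test _ _
    obtain ⟨W, hW⟩ : ∃ W : (Y → N.Dep i → ℝ) → Set (Y × (N.Lev i t × Fin p) → SignType),
        W = fun V => Set.range (fun θ : N.Lev i t × Fin k → ℝ => fun e =>
          SignType.sign (eval θ (Q V e))) := ⟨_, rfl⟩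
    have hLD : Fintype.card (N.Lev i t) ≤ Fintype.card (N.Dep i) :=
      Fintype.card_subtype_le _
    have hWcard : ∀ V, (W V).ncard ≤ M ^ (Fintype.card (N.Lev i t) * k) := by
      intro V
      rw [hW]
      refine (Pool.Agent.Helper448.Warren.ncard_sign_patterns_le (Q V) _ (hQd V)).trans ?_
      rw [Fintype.card_prod (N.Lev i t) (Fin k), Fintype.card_fin, Fintype.card_prod,
        Fintype.card_prod, Fintype.card_fin]
      apply Nat.pow_le_pow_left
      refine le_trans ?_ hM
      have h5 : 4 * (Fintype.card Y * (Fintype.card (N.Lev i t) * p)) * d ≤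
          4 * (Fintype.card Y * (Fintype.card (N.Dep i) * p)) * d :=
        Nat.mul_le_mul_right _ (Nat.mul_le_mul_left _ (Nat.mul_le_mul_left _
          (Nat.mul_le_mul_right _ hLD)))
      omega
    obtain ⟨upd, hupd⟩ : ∃ upd : (Y → N.Dep i → ℝ) → (Y × (N.Lev i t × Fin p) → SignType) →
        (Y → N.Dep i → ℝ), upd = fun (V : Y → N.Dep i → ℝ)
          (s : Y × (N.Lev i t × Fin p) → SignType) (v : Y) (g : N.Dep i) =>
      if hl : N.level g = t then c g (fun q => s (v, (⟨g, hl⟩, q))) else V v g := ⟨_, rfl⟩
    refine ⟨S.biUnion (fun V => (Set.toFinite (W V)).toFinset.image (upd V)), ?_, ?_⟩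
    · refine card_biUnion_le.trans ?_
      have h4 : ∀ V, ((Set.toFinite (W V)).toFinset.image (upd V)).card ≤
          M ^ (Fintype.card (N.Lev i t) * k) := by
        intro V
        refine card_image_le.trans ?_
        rw [← Set.ncard_eq_toFinset_card]
        exact hWcard V
      have h6 : (univ.filter (fun g : N.Dep i => N.level g < t + 1)).card =
          (univ.filter (fun g : N.Dep i => N.level g < t)).card + Fintype.card (N.Lev i t) := by
        rw [Fintype.card_subtype, ← card_union_of_disjoint]
        · congr 1
          ext g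
          simp only [mem_filter, mem_univ, true_and, mem_union]
          omega
        · rw [Finset.disjoint_filter]
          intro g _ hg
          omega
      calc ∑ V ∈ S, ((Set.toFinite (W V)).toFinset.image (upd V)).card
          ≤ ∑ _V ∈ S, M ^ (Fintype.card (N.Lev i t) * k) := sum_le_sum fun V _ => h4 V
        _ = S.card * M ^ (Fintype.card (N.Lev i t) * k) := by rw [sum_const, smul_eq_mul]
        _ ≤ M ^ ((univ.filter (fun g : N.Dep i => N.level g < t)).card * k) *
              M ^ (Fintype.card (N.Lev i t) * k) := Nat.mul_le_mul_right _ h1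
        _ = M ^ ((univ.filter (fun g : N.Dep i => N.level g < t + 1)).card * k) := by
            rw [← pow_add, h6, add_mul]
    · intro z
      rw [mem_biUnion]
      refine ⟨_, h2 z, ?_⟩
      rw [mem_image]
      obtain ⟨V, hV⟩ : ∃ V : Y → N.Dep i → ℝ,
          V = fun v (g : N.Dep i) => N.values (Function.update z i (y v)) t g := ⟨_, rfl⟩
      rw [← hV]
      refine ⟨fun e => SignType.sign (eval (fun e : N.Lev i t × Fin k => N.par i z (e.1.1, e.2))
        (Q V e)), ?_, ?_⟩
      · rw [Set.Finite.mem_toFinset, hW]
        exact ⟨_, rfl⟩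
      · funext v g
        rw [hupd]
        dsimp only
        by_cases hl : N.level g = t
        · rw [dif_pos hl]
          have h5 : (fun j => eval (fun e : N.Lev i t × Fin k => N.par i z (e.1.1, e.2))
              (N.chan0 i y (V v) v ⟨g, hl⟩ j)) =
              N.input (Function.update z i (y v)) (N.values (Function.update z i (y v)) t) g := by
            funext j
            exact N.eval_chan0 i y (V v) v ⟨g, hl⟩ j z (fun g' => by rw [hV])
          simp only [values, hl, if_true, fire, hc, eval_C]
          congr 1
          funext q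
          rw [hQ]
          simp only [eval_bind₁']
          rw [h5]
        · rw [dif_neg hl, N.values_succ_of_ne hl, hV]

end steps

end Net

end Pool.Agent.Q225.NN
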