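import Pool.Agent.Q225.NN.Good

set_option autoImplicit false

/-! # Networks of threshold neurons -/

namespace Pool.Agent.Q225.NN

open Finset MvPolynomial
open Pool.Agent.Q225.SP (somes card_somes)

section zt

open Pool.Agent.Y638.RF.ZT (zeroTri first card_first)

variable (n : ℕ)

/-- one neuron for every triangle, and the output neuron -/
noncomputable def triNet : Net (Fin 3 × Fin n × Fin n) (fun _ => ℤ)
    ((Fin n × Fin n × Fin n) ⊕ Unit) 1 1 1 2 where
  level g := g.elim (fun _ => 0) (fun _ => 1)
  weight g _ g' := match g, g' with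
    | .inr _, .inl _ => 1
    | _, _ => 0
  feature g _ e x := match g with
    | .inl t => if e = (0, t.1, t.2.1) ∨ e = (1, t.2.1, t.2.2) ∨ e = (2, t.1, t.2.2) then (x : ℝ)
        else 0
    | .inr _ => 0
  test _ _ := X 0
  piece g s := match g with
    | .inl _ => C (if s 0 = 0 then 1 else 0)
    | .inr _ => C (if s 0 = 1 then 1 else 0)
  out := .inr ()
  level_lt g := by cases g <;> simp
  degree_test g q := by simp [totalDegree_X]
  degree_piece g s := by
    cases g <;> (dsimp only; rw [totalDegree_C]; exact Nat.zero_le _)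

theorem triNet_steps : (triNet n).Steps := by
  rintro (g | g) s
  · exact ⟨_, rfl⟩
  · exact ⟨_, rfl⟩

theorem triNet_inl (x : Fin 3 × Fin n × Fin n → ℤ) (t : Fin n × Fin n × Fin n) :
    (triNet n).values x 1 (.inl t) =
      if x (0, t.1, t.2.1) + x (1, t.2.1, t.2.2) + x (2, t.1, t.2.2) = 0 then 1 else 0 := by
  classical
  have h1 : (triNet n).input x ((triNet n).values x 0) (.inl t) 0 =
      ((x (0, t.1, t.2.1) + x (1, t.2.1, t.2.2) + x (2, t.1, t.2.2) : ℤ) : ℝ) := by
    unfold Net.input
    simp only [triNet, Net.values, mul_zero, sum_const_zero, zero_add]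
    have h2 : ∀ e : Fin 3 × Fin n × Fin n,
        (if e = (0, t.1, t.2.1) ∨ e = (1, t.2.1, t.2.2) ∨ e = (2, t.1, t.2.2) then (x e : ℝ)
          else 0) = (if e = (0, t.1, t.2.1) then (x e : ℝ) else 0) +
          (if e = (1, t.2.1, t.2.2) then (x e : ℝ) else 0) +
          (if e = (2, t.1, t.2.2) then (x e : ℝ) else 0) := by
      intro e
      by_cases h3 : e = (0, t.1, t.2.1)
      · subst h3
        simp
      · by_cases h4 : e = (1, t.2.1, t.2.2)
        · subst h4
          simp
        · simp [h3, h4]
    simp only [h2, sum_add_distrib, sum_ite_eq', mem_univ, if_true]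
    push_cast
    ring
  have h3 : (triNet n).values x 1 (.inl t) =
      (triNet n).fire x ((triNet n).values x 0) (.inl t) := by
    simp [Net.values, triNet]
  rw [h3]
  unfold Net.fire
  have h4 : ∀ q : Fin 1, eval ((triNet n).input x ((triNet n).values x 0) (.inl t))
      ((triNet n).test (.inl t) q) = ((x (0, t.1, t.2.1) + x (1, t.2.1, t.2.2) +
        x (2, t.1, t.2.2) : ℤ) : ℝ) := by
    intro q
    rw [← h1]
    simp only [triNet, eval_X]
  simp only [h4]
  simp only [triNet, eval_C, sign_eq_zero_iff, Int.cast_eq_zero]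

theorem triNet_inr (x : Fin 3 × Fin n × Fin n → ℤ) :
    (triNet n).values x 2 (.inr ()) = if zeroTri x = true then 1 else 0 := by
  classical
  have h1 : (triNet n).input x ((triNet n).values x 1) (.inr ()) 0 =
      ∑ t : Fin n × Fin n × Fin n, (triNet n).values x 1 (.inl t) := by
    unfold Net.input
    rw [Fintype.sum_sum_type]
    simp [triNet]
  have h3 : (triNet n).values x 2 (.inr ()) =
      (triNet n).fire x ((triNet n).values x 1) (.inr ()) := by
    simp [Net.values, triNet]
  rw [h3]
  unfold Net.fire
  have h4 : ∀ q : Fin 1, eval ((triNet n).input x ((triNet n).values x 1) (.inr ()))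
      ((triNet n).test (.inr ()) q) =
        ∑ t : Fin n × Fin n × Fin n, (triNet n).values x 1 (.inl t) := by
    intro q
    rw [← h1]
    simp only [triNet, eval_X]
  simp only [h4]
  simp only [triNet_inl]
  simp only [triNet, eval_C, sign_eq_one_iff]
  congr 1
  rw [eq_iff_iff, sum_pos_iff_of_nonneg (fun t _ => by split_ifs <;> norm_num)]
  unfold zeroTri
  rw [decide_eq_true_iff]
  constructor
  · rintro ⟨t, -, ht⟩
    refine ⟨t.1, t.2.1, t.2.2, ?_⟩
    by_contra h5
    rw [if_neg h5] at ht
    exact lt_irrefl _ ht
  · rintro ⟨i, j, l, h5⟩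
    exact ⟨(i, j, l), mem_univ _, by simp [h5]⟩

theorem triNet_load : (triNet n).load (first n) ≤ n ^ 3 + n ^ 2 := by
  classical
  have h1 : ∀ e ∈ first n, (univ.filter (fun g => (triNet n).DependsOn g e)).card ≤ n + 1 := by
    intro e he
    have h2 : univ.filter (fun g => (triNet n).DependsOn g e) ⊆
        (univ.image (fun l : Fin n => (Sum.inl (e.2.1, e.2.2, l) :
          (Fin n × Fin n × Fin n) ⊕ Unit))) ∪ {Sum.inr ()} := by
      intro g hg
      rw [mem_union, mem_image, mem_singleton]
      rcases g with t | u
      · left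
        refine ⟨t.2.2, mem_univ _, ?_⟩
        rw [mem_filter] at hg
        obtain ⟨-, x, a, hxa⟩ := hg
        by_contra hne
        apply hxa
        have h5 : ∀ z, (triNet n).values z 2 (.inl t) = (triNet n).values z 1 (.inl t) := by
          intro z
          exact (triNet n).values_succ_of_ne (by simp [triNet])
        rw [h5, h5, triNet_inl, triNet_inl]
        rw [first, mem_map] at he
        obtain ⟨q, -, rfl⟩ := he
        have h6 : ((0 : Fin 3), t.1, t.2.1) ≠ (0, q) := by
          intro h7
          have h8 := (Prod.mk.inj h7).2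
          subst h8
          exact hne rfl
        have h7 : ((1 : Fin 3), t.2.1, t.2.2) ≠ (0, q) := by simp
        have h8 : ((2 : Fin 3), t.1, t.2.2) ≠ (0, q) := by simp
        have e6 : Function.update x ((0 : Fin 3), q) a (0, t.1, t.2.1) = x (0, t.1, t.2.1) :=
          Function.update_of_ne h6 _ _
        have e7 : Function.update x ((0 : Fin 3), q) a (1, t.2.1, t.2.2) = x (1, t.2.1, t.2.2) :=
          Function.update_of_ne h7 _ _
        have e8 : Function.update x ((0 : Fin 3), q) a (2, t.1, t.2.2) = x (2, t.1, t.2.2) :=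
          Function.update_of_ne h8 _ _
        simp only [Function.Embedding.coeFn_mk, e6, e7, e8]
      · right
        rfl
    refine (card_le_card h2).trans ((card_union_le _ _).trans ?_)
    rw [card_singleton]
    have h3 : (univ.image (fun l : Fin n => (Sum.inl (e.2.1, e.2.2, l) :
          (Fin n × Fin n × Fin n) ⊕ Unit))).card ≤ n := by
      refine card_image_le.trans ?_
      rw [card_univ, Fintype.card_fin]
    omega
  unfold Net.load
  refine (sum_le_sum h1).trans ?_
  rw [sum_const, card_first, smul_eq_mul]
  apply le_of_eq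
  ring

theorem zt_upper : ∃ N : Net (Fin 3 × Fin n × Fin n) (fun _ => ℤ)
    ((Fin n × Fin n × Fin n) ⊕ Unit) 1 1 1 2, N.Steps ∧ N.load (first n) ≤ n ^ 3 + n ^ 2 ∧
      ∀ x, N.accepts x = zeroTri x := by
  refine ⟨triNet n, triNet_steps n, triNet_load n, fun x => ?_⟩
  unfold Net.accepts
  have h1 : (triNet n).values x 2 (triNet n).out = if zeroTri x = true then 1 else 0 :=
    triNet_inr n x
  rw [h1]
  cases zeroTri x <;> simp

end zt

section xor

open Pool.Agent.Y638.RF.Xor (Item product)

variable (n : ℕ)

/-- one neuron for every product, one for every pair of vectors, and the output neuron -/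
noncomputable def parNet : Net (Option (Fin n)) (Item n)
    ((Fin n × Fin n × Fin n) ⊕ (Fin n ⊕ Unit)) 1 (n ^ 2 + 1) 1 3 where
  level g := match g with
    | .inl _ => 0
    | .inr (.inl _) => 1
    | .inr (.inr _) => 2
  weight g _ g' := match g, g' with
    | .inr (.inl i), .inl t => if t.1 = i then 1 else 0
    | .inr (.inr _), .inr (.inl _) => 1
    | _, _ => 0
  feature g _ e := match g, e with
    | .inl t, none => fun M => if M t.2.1 t.2.2 = 1 then 1 else 0
    | .inl t, some i => fun d => if i = t.1 ∧ d.1 t.2.1 = 1 ∧ d.2 t.2.2 = 1 then 1 else 0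
    | .inr _, none => fun _ => 0
    | .inr _, some _ => fun _ => 0
  test g q := match g with
    | .inl _ => X 0 - C (3 / 2)
    | .inr (.inl _) => X 0 - C (q : ℝ)
    | .inr (.inr _) => X 0
  piece g s := match g with
    | .inl _ => C (if s 0 = 1 then 1 else 0)
    | .inr (.inl _) => C (by classical exact if ∃ q : Fin (n ^ 2 + 1), Odd (q : ℕ) ∧ s q = 0
        then 1 else 0)
    | .inr (.inr _) => C (if s 0 = 1 then 1 else 0)
  out := .inr (.inr ())
  level_lt g := by rcases g with t | i | u <;> simp
  degree_test g q := by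
    rcases g with t | i | u
    · refine (totalDegree_sub _ _).trans (max_le ?_ ?_)
      · rw [totalDegree_X]
      · rw [totalDegree_C]
        omega
    · refine (totalDegree_sub _ _).trans (max_le ?_ ?_)
      · rw [totalDegree_X]
      · rw [totalDegree_C]
        omega
    · simp [totalDegree_X]
  degree_piece g s := by
    rcases g with t | i | u <;> (dsimp only; rw [totalDegree_C]; exact Nat.zero_le _)

theorem parNet_steps : (parNet n).Steps := by
  rintro (t | i | u) s
  · exact ⟨_, rfl⟩
  · exact ⟨_, rfl⟩
  · exact ⟨_, rfl⟩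

theorem parNet_inl (x : ∀ i, Item n i) (t : Fin n × Fin n × Fin n) :
    (parNet n).values x 1 (.inl t) =
      if x none t.2.1 t.2.2 = 1 ∧ (x (some t.1)).1 t.2.1 = 1 ∧ (x (some t.1)).2 t.2.2 = 1
        then 1 else 0 := by
  classical
  have h1 : (parNet n).input x ((parNet n).values x 0) (.inl t) 0 =
      (if x none t.2.1 t.2.2 = 1 then 1 else 0) +
        if (x (some t.1)).1 t.2.1 = 1 ∧ (x (some t.1)).2 t.2.2 = 1 then 1 else 0 := by
    unfold Net.input
    rw [Fintype.sum_option]
    simp only [parNet, Net.values, mul_zero, sum_const_zero, zero_add]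
    congr 1
    rw [Finset.sum_eq_single t.1]
    · simp
    · intro i _ hi
      simp [hi]
    · simp
  have h3 : (parNet n).values x 1 (.inl t) =
      (parNet n).fire x ((parNet n).values x 0) (.inl t) := by
    simp [Net.values, parNet]
  rw [h3]
  unfold Net.fire
  have h4 : ∀ q : Fin (n ^ 2 + 1), eval ((parNet n).input x ((parNet n).values x 0) (.inl t))
      ((parNet n).test (.inl t) q) = (if x none t.2.1 t.2.2 = 1 then 1 else 0) +
        (if (x (some t.1)).1 t.2.1 = 1 ∧ (x (some t.1)).2 t.2.2 = 1 then 1 else 0) - 3 / 2 := by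
    intro q
    rw [← h1]
    simp only [parNet, eval_X, map_sub, eval_C]
  simp only [h4]
  simp only [parNet, eval_C, sign_eq_one_iff]
  by_cases a1 : x none t.2.1 t.2.2 = 1
  · by_cases a2 : (x (some t.1)).1 t.2.1 = 1 ∧ (x (some t.1)).2 t.2.2 = 1
    · simp only [a1, a2, and_self, if_true]
      norm_num
    · have a3 : ¬ (x none t.2.1 t.2.2 = 1 ∧ (x (some t.1)).1 t.2.1 = 1 ∧
          (x (some t.1)).2 t.2.2 = 1) := fun h => a2 h.2
      rw [if_neg a2, if_neg a3, if_pos a1, if_neg (by norm_num)]
  · have a3 : ¬ (x none t.2.1 t.2.2 = 1 ∧ (x (some t.1)).1 t.2.1 = 1 ∧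
        (x (some t.1)).2 t.2.2 = 1) := fun h => a1 h.1
    rw [if_neg a1, if_neg a3]
    split_ifs with a4 a5 a6
    · norm_num at a5
    · rfl
    · norm_num at a6
    · rfl

/-- the number of the nonzero products -/
noncomputable def cnt (x : ∀ i, Item n i) (i : Fin n) : ℕ :=
  (univ.filter (fun p : Fin n × Fin n =>
    x none p.1 p.2 = 1 ∧ (x (some i)).1 p.1 = 1 ∧ (x (some i)).2 p.2 = 1)).card

theorem cnt_le (x : ∀ i, Item n i) (i : Fin n) : cnt n x i < n ^ 2 + 1 := by
  unfold cnt
  refine Nat.lt_succ_of_le ((card_le_univ _).trans ?_)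
  rw [Fintype.card_prod, Fintype.card_fin, sq]

theorem parNet_mid (x : ∀ i, Item n i) (i : Fin n) :
    (parNet n).values x 2 (.inr (.inl i)) = if Odd (cnt n x i) then 1 else 0 := by
  classical
  have h1 : (parNet n).input x ((parNet n).values x 1) (.inr (.inl i)) 0 = cnt n x i := by
    unfold Net.input
    rw [Fintype.sum_option, Fintype.sum_sum_type, Fintype.sum_prod_type]
    simp only [parNet_inl]
    simp only [parNet, zero_mul, sum_const_zero, add_zero]
    rw [Finset.sum_eq_single i]
    · simp only [if_true, one_mul]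
      rw [cnt, card_filter]
      push_cast
      rfl
    · intro j _ hj
      simp [hj]
    · simp
  have h3 : (parNet n).values x 2 (.inr (.inl i)) =
      (parNet n).fire x ((parNet n).values x 1) (.inr (.inl i)) := by
    simp [Net.values, parNet]
  rw [h3]
  unfold Net.fire
  have h4 : ∀ q : Fin (n ^ 2 + 1), eval ((parNet n).input x ((parNet n).values x 1)
      (.inr (.inl i))) ((parNet n).test (.inr (.inl i)) q) = cnt n x i - (q : ℕ) := by
    intro q
    rw [← h1]
    simp only [parNet, eval_X, map_sub, eval_C]
  simp only [h4]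
  simp only [parNet, eval_C, sign_eq_zero_iff]
  congr 1
  rw [eq_iff_iff]
  constructor
  · rintro ⟨q, hq, hq2⟩
    have : (cnt n x i : ℝ) = ((q : ℕ) : ℝ) := by linarith
    rw [Nat.cast_inj] at this
    rw [this]
    exact hq
  · intro ho
    exact ⟨⟨cnt n x i, cnt_le n x i⟩, ho, by simp⟩

theorem odd_cnt (x : ∀ i, Item n i) (i : Fin n) : Odd (cnt n x i) ↔
    ∑ j : Fin n, ∑ k : Fin n, (x (some i)).1 j * (x none) j k * (x (some i)).2 k = 1 := by
  classical
  have h1 : ∑ j : Fin n, ∑ k : Fin n, (x (some i)).1 j * (x none) j k * (x (some i)).2 k =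
      ((cnt n x i : ℕ) : ZMod 2) := by
    rw [cnt, card_filter, ← Fintype.sum_prod_type']
    push_cast
    refine sum_congr rfl fun p _ => ?_
    generalize x none p.1 p.2 = a
    generalize (x (some i)).1 p.1 = b
    generalize (x (some i)).2 p.2 = c
    revert a b c
    decide
  rw [h1]
  exact (ZMod.natCast_eq_one_iff_odd).symm

theorem parNet_out (x : ∀ i, Item n i) :
    (parNet n).values x 3 (.inr (.inr ())) = if product n x = true then 1 else 0 := by
  classical
  have h1 : (parNet n).input x ((parNet n).values x 2) (.inr (.inr ())) 0 =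
      ∑ i : Fin n, (parNet n).values x 2 (.inr (.inl i)) := by
    unfold Net.input
    rw [Fintype.sum_sum_type, Fintype.sum_sum_type, Fintype.sum_option]
    simp [parNet]
  have h3 : (parNet n).values x 3 (.inr (.inr ())) =
      (parNet n).fire x ((parNet n).values x 2) (.inr (.inr ())) := by
    simp [Net.values, parNet]
  rw [h3]
  unfold Net.fire
  have h4 : ∀ q : Fin (n ^ 2 + 1), eval ((parNet n).input x ((parNet n).values x 2)
      (.inr (.inr ()))) ((parNet n).test (.inr (.inr ())) q) =
        ∑ i : Fin n, (parNet n).values x 2 (.inr (.inl i)) := by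
    intro q
    rw [← h1]
    simp only [parNet, eval_X]
  simp only [h4]
  simp only [parNet_mid]
  simp only [parNet, eval_C, sign_eq_one_iff]
  congr 1
  rw [eq_iff_iff, sum_pos_iff_of_nonneg (fun t _ => by split_ifs <;> norm_num)]
  unfold product
  rw [decide_eq_true_iff]
  constructor
  · rintro ⟨i, -, hi⟩
    refine ⟨i, ?_⟩
    rw [← odd_cnt]
    by_contra h5
    rw [if_neg h5] at hi
    exact lt_irrefl _ hi
  · rintro ⟨i, hi⟩
    rw [← odd_cnt] at hi
    exact ⟨i, mem_univ _, by simp [hi]⟩

theorem parNet_load : (parNet n).load (somes n) ≤ n ^ 3 + 2 * n := by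
  classical
  have h1 : ∀ e ∈ somes n,
      (univ.filter (fun g => (parNet n).DependsOn g e)).card ≤ n ^ 2 + 2 := by
    intro e he
    rw [somes, mem_map] at he
    obtain ⟨i, -, rfl⟩ := he
    have h2 : univ.filter (fun g => (parNet n).DependsOn g (some i)) ⊆
        (univ.image (fun p : Fin n × Fin n => (Sum.inl (i, p) :
          (Fin n × Fin n × Fin n) ⊕ (Fin n ⊕ Unit)))) ∪ {Sum.inr (.inl i), Sum.inr (.inr ())} := by
      intro g hg
      rw [mem_union, mem_image, mem_insert, mem_singleton]
      rw [mem_filter] at hg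
      obtain ⟨-, x, a, hxa⟩ := hg
      have e0 : Function.update x (some i) a none = x none :=
        Function.update_of_ne (by simp) _ _
      rcases g with t | j | u
      · left
        refine ⟨t.2, mem_univ _, ?_⟩
        by_contra hne
        apply hxa
        have h5 : ∀ z, (parNet n).values z 3 (.inl t) = (parNet n).values z 1 (.inl t) := by
          intro z
          rw [(parNet n).values_succ_of_ne (by simp [parNet]),
            (parNet n).values_succ_of_ne (by simp [parNet])]
        have h6 : t.1 ≠ i := by
          rintro rfl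
          exact hne rfl
        have e1 : Function.update x (some i) a (some t.1) = x (some t.1) :=
          Function.update_of_ne (by simpa using h6) _ _
        rw [h5, h5, parNet_inl, parNet_inl]
        simp only [e0, e1]
      · right
        left
        by_contra hne
        apply hxa
        have h5 : ∀ z, (parNet n).values z 3 (.inr (.inl j)) =
            (parNet n).values z 2 (.inr (.inl j)) := by
          intro z
          rw [(parNet n).values_succ_of_ne (by simp [parNet])]
        have h6 : j ≠ i := by
          rintro rfl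
          exact hne rfl
        have e1 : Function.update x (some i) a (some j) = x (some j) :=
          Function.update_of_ne (by simpa using h6) _ _
        rw [h5, h5, parNet_mid, parNet_mid]
        unfold cnt
        simp only [e0, e1]
      · right
        right
        rfl
    refine (card_le_card h2).trans ((card_union_le _ _).trans ?_)
    have h3 : (univ.image (fun p : Fin n × Fin n => (Sum.inl (i, p) :
          (Fin n × Fin n × Fin n) ⊕ (Fin n ⊕ Unit)))).card ≤ n ^ 2 := by
      refine card_image_le.trans ?_
      rw [card_univ, Fintype.card_prod, Fintype.card_fin, sq]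
    have h4 : ({Sum.inr (.inl i), Sum.inr (.inr ())} :
        Finset ((Fin n × Fin n × Fin n) ⊕ (Fin n ⊕ Unit))).card ≤ 2 := card_le_two
    omega
  unfold Net.load
  refine (sum_le_sum h1).trans ?_
  rw [sum_const, card_somes, smul_eq_mul]
  apply le_of_eq
  ring

theorem xor_upper : ∃ N : Net (Option (Fin n)) (Item n)
    ((Fin n × Fin n × Fin n) ⊕ (Fin n ⊕ Unit)) 1 (n ^ 2 + 1) 1 3, N.Steps ∧
      N.load (somes n) ≤ n ^ 3 + 2 * n ∧ ∀ x, N.accepts x = product n x := by
  refine ⟨parNet n, parNet_steps n, parNet_load n, fun x => ?_⟩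
  unfold Net.accepts
  have h1 : (parNet n).values x 3 (parNet n).out = if product n x = true then 1 else 0 :=
    parNet_out n x
  rw [h1]
  cases product n x <;> simp

end xor

end Pool.Agent.Q225.NN
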